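import Pool.Agent.L7h17.OC.Stm

/-! [COVM] and [COV1] of project OC (helper17). -/

set_option autoImplicit false

open MvPolynomial

namespace Pool.Agent.L7h45.OC

open Pool.Agent.L7h17.OC

/-- the interval of the `τ` -/
def II (u v : ℝ) : Set ℝ := {τ | 0 ≤ τ ∧ u ≤ τ ^ 2 ∧ τ ^ 2 ≤ v}

theorem preconn_II (u v : ℝ) : IsPreconnected (II u v) := by
  apply Set.OrdConnected.isPreconnected
  constructor
  rintro x ⟨hx0, hx1, hx2⟩ y ⟨hy0, hy1, hy2⟩ z ⟨hz1, hz2⟩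
  exact ⟨hx0.trans hz1, hx1.trans (pow_le_pow_left₀ hx0 hz1 2),
    (pow_le_pow_left₀ (hx0.trans hz1) hz2 2).trans hy2⟩

/-- the angle of the level -/
noncomputable def ph (p : Polynomial ℝ) (B : ℝ → ℂ) (τ : ℝ) : ℝ :=
  Real.arccos (-(p.eval (τ ^ 2)) / ‖B τ‖)

/-- the angles of the points over `τ` -/
noncomputable def ang (m : ℕ) (p : Polynomial ℝ) (B : ℝ → ℂ) (ψ : ℝ → ℝ) (s : ℝ) (K : ℤ) (τ : ℝ) : ℝ :=
  (-ψ τ + 2 * Real.pi * K + s * ph p B τ) / m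

/-- the point with the angle `θ` -/
noncomputable def pt (θ τ : ℝ) : Fin 3 → ℝ := ![Real.cos θ, Real.sin θ, τ]

/-- the arcs -/
noncomputable def arc (m : ℕ) (p : Polynomial ℝ) (B : ℝ → ℂ) (ψ : ℝ → ℝ) (u v : ℝ) (s : ℝ) (K : ℤ) :
    Set (Fin 3 → ℝ) := (fun τ => pt (ang m p B ψ s K τ) τ) '' II u v

variable {m : ℕ} {p : Polynomial ℝ} {B : ℝ → ℂ} {ψ : ℝ → ℝ} {u v : ℝ}

theorem continuousOn_ph (hB : ContinuousOn B (II u v)) (hB0 : ∀ τ ∈ II u v, B τ ≠ 0) :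
    ContinuousOn (ph p B) (II u v) := by
  apply Real.continuous_arccos.comp_continuousOn
  apply ContinuousOn.div
  · exact ((p.continuous.comp (continuous_pow 2)).neg).continuousOn
  · exact hB.norm
  · intro τ hτ
    exact norm_ne_zero_iff.2 (hB0 τ hτ)

theorem preconn_arc (hB : ContinuousOn B (II u v)) (hψ : ContinuousOn ψ (II u v))
    (hB0 : ∀ τ ∈ II u v, B τ ≠ 0) (s : ℝ) (K : ℤ) : IsPreconnected (arc m p B ψ u v s K) := by
  have hang : ContinuousOn (ang m p B ψ s K) (II u v) := by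
    unfold ang
    exact ((hψ.neg.add continuousOn_const).add (continuousOn_const.mul (continuousOn_ph hB hB0))).div_const _
  apply (preconn_II u v).image
  apply continuousOn_pi.2
  intro i
  fin_cases i
  · exact Real.continuous_cos.comp_continuousOn hang
  · exact Real.continuous_sin.comp_continuousOn hang
  · exact continuousOn_id

theorem re_eq (m : ℕ) (θ x r : ℝ) :
    (Complex.exp (m * θ * Complex.I) * ((r : ℂ) * Complex.exp (x * Complex.I))).re =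
      r * Real.cos (m * θ + x) := by
  have h : Complex.exp (m * θ * Complex.I) * ((r : ℂ) * Complex.exp (x * Complex.I)) =
      (r : ℂ) * Complex.exp (((m * θ + x : ℝ) : ℂ) * Complex.I) := by
    push_cast
    rw [add_mul, Complex.exp_add]
    ring
  rw [h, Complex.re_ofReal_mul, Complex.exp_ofReal_mul_I_re]

/-- the hypotheses of the parts -/
def Hy (p : Polynomial ℝ) (B : ℝ → ℂ) (ψ : ℝ → ℝ) (u v : ℝ) : Prop :=
  ∀ τ : ℝ, 0 ≤ τ → u ≤ τ ^ 2 → τ ^ 2 ≤ v → B τ ≠ 0 ∧ |p.eval (τ ^ 2)| ≤ ‖B τ‖ ∧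
    B τ = (‖B τ‖ : ℂ) * Complex.exp (ψ τ * Complex.I)

theorem cos_ph (h : Hy p B ψ u v) {τ : ℝ} (hτ : τ ∈ II u v) :
    Real.cos (ph p B τ) = -(p.eval (τ ^ 2)) / ‖B τ‖ := by
  obtain ⟨h1, h2, h3⟩ := h τ hτ.1 hτ.2.1 hτ.2.2
  have hn : 0 < ‖B τ‖ := norm_pos_iff.2 h1
  unfold ph
  apply Real.cos_arccos
  · rw [le_div_iff₀ hn]
    have := (abs_le.1 h2).2
    linarith
  · rw [div_le_iff₀ hn]
    have := (abs_le.1 h2).1
    linarith

theorem value_iff (h : Hy p B ψ u v) {τ : ℝ} (hτ : τ ∈ II u v) (θ : ℝ) :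
    p.eval (τ ^ 2) + (Complex.exp (m * θ * Complex.I) * B τ).re = 0 ↔
      Real.cos (m * θ + ψ τ) = Real.cos (ph p B τ) := by
  rw [cos_ph h hτ]
  obtain ⟨h1, h2, h3⟩ := h τ hτ.1 hτ.2.1 hτ.2.2
  have hn : 0 < ‖B τ‖ := norm_pos_iff.2 h1
  have e : (Complex.exp (m * θ * Complex.I) * B τ).re = ‖B τ‖ * Real.cos (m * θ + ψ τ) := by
    conv_lhs => rw [h3]
    exact re_eq m θ (ψ τ) ‖B τ‖
  rw [e, eq_div_iff hn.ne']
  constructor
  · intro h; linarith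
  · intro h; linarith

theorem mang (hm : 0 < m) (s : ℝ) (K : ℤ) (τ : ℝ) :
    m * ang m p B ψ s K τ + ψ τ = 2 * Real.pi * K + s * ph p B τ := by
  unfold ang
  have : (m : ℝ) ≠ 0 := by exact_mod_cast hm.ne'
  field_simp
  ring

theorem arc_sub (hm : 0 < m) (h : Hy p B ψ u v) {s : ℝ} (hs : s = 1 ∨ s = -1) (K : ℤ) :
    arc m p B ψ u v s K ⊆ piece m p B u v := by
  rintro w ⟨τ, hτ, rfl⟩
  refine ⟨ang m p B ψ s K τ, τ, hτ.1, hτ.2.1, hτ.2.2, rfl, ?_⟩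
  rw [value_iff h hτ, mang hm]
  have e : (2 * Real.pi * K + s * ph p B τ : ℝ) = s * ph p B τ + K * (2 * Real.pi) := by ring
  rw [e, Real.cos_add_int_mul_two_pi]
  rcases hs with rfl | rfl
  · rw [one_mul]
  · rw [neg_one_mul, Real.cos_neg]

theorem sub_arcs (hm : 0 < m) (h : Hy p B ψ u v) :
    piece m p B u v ⊆ ⋃ K : ℤ, (arc m p B ψ u v 1 K ∪ arc m p B ψ u v (-1) K) := by
  rintro w ⟨θ, τ, h0, h1, h2, rfl, h3⟩
  have hτ : τ ∈ II u v := ⟨h0, h1, h2⟩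
  have hm' : (m : ℝ) ≠ 0 := by exact_mod_cast hm.ne'
  rw [value_iff h hτ, eq_comm, Real.cos_eq_cos_iff] at h3
  obtain ⟨K, hK | hK⟩ := h3
  · refine Set.mem_iUnion.2 ⟨K, Or.inl ⟨τ, hτ, ?_⟩⟩
    have : ang m p B ψ 1 K τ = θ := by
      have h4 := mang (p := p) (B := B) (ψ := ψ) hm 1 K τ
      apply mul_left_cancel₀ hm'
      linarith
    show pt (ang m p B ψ 1 K τ) τ = _
    rw [this]
    rfl
  · refine Set.mem_iUnion.2 ⟨K, Or.inr ⟨τ, hτ, ?_⟩⟩
    have : ang m p B ψ (-1) K τ = θ := by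
      have h4 := mang (p := p) (B := B) (ψ := ψ) hm (-1) K τ
      apply mul_left_cancel₀ hm'
      linarith
    show pt (ang m p B ψ (-1) K τ) τ = _
    rw [this]
    rfl

theorem piece_eq (hm : 0 < m) (h : Hy p B ψ u v) :
    piece m p B u v = ⋃ K : ℤ, (arc m p B ψ u v 1 K ∪ arc m p B ψ u v (-1) K) := by
  apply Set.Subset.antisymm (sub_arcs hm h)
  apply Set.iUnion_subset
  intro K
  exact Set.union_subset (arc_sub hm h (Or.inl rfl) K) (arc_sub hm h (Or.inr rfl) K)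

theorem arc_period (hm : 0 < m) (s : ℝ) (K q : ℤ) :
    arc m p B ψ u v s (K + m * q) = arc m p B ψ u v s K := by
  unfold arc
  apply Set.image_congr
  intro τ _
  have hm' : (m : ℝ) ≠ 0 := by exact_mod_cast hm.ne'
  have e : ang m p B ψ s (K + m * q) τ = ang m p B ψ s K τ + q * (2 * Real.pi) := by
    unfold ang
    push_cast
    field_simp
    ring
  show pt (ang m p B ψ s (K + m * q) τ) τ = pt (ang m p B ψ s K τ) τ
  rw [e]
  unfold pt
  rw [Real.cos_add_int_mul_two_pi, Real.sin_add_int_mul_two_pi]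

theorem meet_zero {τ : ℝ} (hτ : τ ∈ II u v) (h0 : ph p B τ = 0) (K : ℤ) :
    pt (ang m p B ψ 1 K τ) τ ∈ arc m p B ψ u v 1 K ∧ pt (ang m p B ψ 1 K τ) τ ∈ arc m p B ψ u v (-1) K := by
  refine ⟨⟨τ, hτ, rfl⟩, ⟨τ, hτ, ?_⟩⟩
  show pt (ang m p B ψ (-1) K τ) τ = pt (ang m p B ψ 1 K τ) τ
  unfold ang
  rw [h0, mul_zero, mul_zero]

theorem meet_pi {τ : ℝ} (hτ : τ ∈ II u v) (h0 : ph p B τ = Real.pi) (K : ℤ) :
    pt (ang m p B ψ 1 K τ) τ ∈ arc m p B ψ u v 1 K ∧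
      pt (ang m p B ψ 1 K τ) τ ∈ arc m p B ψ u v (-1) (K + 1) := by
  refine ⟨⟨τ, hτ, rfl⟩, ⟨τ, hτ, ?_⟩⟩
  show pt (ang m p B ψ (-1) (K + 1) τ) τ = pt (ang m p B ψ 1 K τ) τ
  unfold ang
  rw [h0]
  push_cast
  congr 2
  ring

/-- the angle at a level point -/
theorem ph_level {t : ℝ} (h : Hy p B ψ u v) (ht : Real.sqrt t ∈ II u v) (h0 : 0 ≤ t)
    (hl : |p.eval t| = ‖B (Real.sqrt t)‖) :
    (p.eval t < 0 ∧ ph p B (Real.sqrt t) = 0) ∨ (0 < p.eval t ∧ ph p B (Real.sqrt t) = Real.pi) := by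
  obtain ⟨h1, h2, h3⟩ := h _ ht.1 ht.2.1 ht.2.2
  have hn : 0 < ‖B (Real.sqrt t)‖ := norm_pos_iff.2 h1
  have hp : p.eval t ≠ 0 := by
    intro h4
    rw [h4, abs_zero] at hl
    exact hn.ne hl
  unfold ph
  rw [Real.sq_sqrt h0, ← hl]
  rcases lt_or_gt_of_ne hp with hneg | hpos
  · left
    refine ⟨hneg, ?_⟩
    rw [abs_of_neg hneg, div_self (neg_ne_zero.2 hp), Real.arccos_one]
  · right
    refine ⟨hpos, ?_⟩
    rw [abs_of_pos hpos, neg_div, div_self hp, Real.arccos_neg_one]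

theorem s_COVM : S_COVM := by
  intro m p B ψ u v hm hu huv hB hψ h hl
  have hB0 : ∀ τ ∈ II u v, B τ ≠ 0 := fun τ hτ => (h τ hτ.1 hτ.2.1 hτ.2.2).1
  have hv : 0 ≤ v := hu.trans huv
  have hs : Real.sqrt v ∈ II u v := ⟨Real.sqrt_nonneg v, by rw [Real.sq_sqrt hv]; exact huv,
    by rw [Real.sq_sqrt hv]⟩
  have hpre := fun s K => preconn_arc (m := m) (p := p) hB hψ hB0 s K
  have hmz : (m : ℤ) ≠ 0 := by exact_mod_cast hm.ne'
  have hmod : ∀ K : ℤ, ∃ (k : Fin m) (q : ℤ), K = (k : ℕ) + m * q := by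
    intro K
    have h1 := Int.emod_nonneg K hmz
    have h2 := Int.emod_lt_of_pos K (show (0 : ℤ) < m by exact_mod_cast hm)
    refine ⟨⟨(K % m).toNat, by omega⟩, K / m, ?_⟩
    have h3 := Int.emod_add_mul_ediv K m
    simp only [Int.toNat_of_nonneg h1]
    exact h3.symm
  rcases ph_level h hs hv hl with ⟨-, h0⟩ | ⟨-, h0⟩
  · refine ⟨fun k => arc m p B ψ u v 1 (k : ℕ) ∪ arc m p B ψ u v (-1) (k : ℕ), ?_, ?_⟩
    · intro k
      have hx := meet_zero (m := m) (ψ := ψ) hs h0 ((k : ℕ) : ℤ)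
      exact (hpre 1 _).union _ hx.1 hx.2 (hpre (-1) _)
    · rw [piece_eq hm h]
      apply Set.Subset.antisymm
      · apply Set.iUnion_subset
        intro K
        obtain ⟨k, q, hk⟩ := hmod K
        rw [hk, arc_period hm, arc_period hm]
        exact Set.subset_iUnion (fun k : Fin m => arc m p B ψ u v 1 (k : ℕ) ∪ arc m p B ψ u v (-1) (k : ℕ)) k
      · apply Set.iUnion_subset
        intro k
        exact Set.subset_iUnion (fun K : ℤ => arc m p B ψ u v 1 K ∪ arc m p B ψ u v (-1) K) ((k : ℕ) : ℤ)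
  · refine ⟨fun k => arc m p B ψ u v 1 (k : ℕ) ∪ arc m p B ψ u v (-1) ((k : ℕ) + 1), ?_, ?_⟩
    · intro k
      have hx := meet_pi (m := m) (ψ := ψ) hs h0 ((k : ℕ) : ℤ)
      exact (hpre 1 _).union _ hx.1 hx.2 (hpre (-1) _)
    · rw [piece_eq hm h]
      apply Set.Subset.antisymm
      · apply Set.iUnion_subset
        intro K
        apply Set.union_subset
        · obtain ⟨k, q, hk⟩ := hmod K
          rw [hk, arc_period hm]
          exact Set.subset_union_left.trans (Set.subset_iUnion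
            (fun k : Fin m => arc m p B ψ u v 1 (k : ℕ) ∪ arc m p B ψ u v (-1) ((k : ℕ) + 1)) k)
        · obtain ⟨k, q, hk⟩ := hmod (K - 1)
          have hk2 : K = ((k : ℕ) + 1 : ℤ) + m * q := by linarith
          rw [hk2, arc_period hm]
          exact Set.subset_union_right.trans (Set.subset_iUnion
            (fun k : Fin m => arc m p B ψ u v 1 (k : ℕ) ∪ arc m p B ψ u v (-1) ((k : ℕ) + 1)) k)
      · apply Set.iUnion_subset
        intro k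
        apply Set.union_subset
        · exact Set.subset_union_left.trans (Set.subset_iUnion
            (fun K : ℤ => arc m p B ψ u v 1 K ∪ arc m p B ψ u v (-1) K) ((k : ℕ) : ℤ))
        · exact Set.subset_union_right.trans (Set.subset_iUnion
            (fun K : ℤ => arc m p B ψ u v 1 K ∪ arc m p B ψ u v (-1) K) ((k : ℕ) + 1 : ℤ))

theorem s_COV1 : S_COV1 := by
  intro m p B ψ u v hm hu huv hB hψ h hl hl' hneg
  have hB0 : ∀ τ ∈ II u v, B τ ≠ 0 := fun τ hτ => (h τ hτ.1 hτ.2.1 hτ.2.2).1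
  have hv : 0 ≤ v := hu.trans huv
  have hs : Real.sqrt v ∈ II u v := ⟨Real.sqrt_nonneg v, by rw [Real.sq_sqrt hv]; exact huv,
    by rw [Real.sq_sqrt hv]⟩
  have hs' : Real.sqrt u ∈ II u v := ⟨Real.sqrt_nonneg u, by rw [Real.sq_sqrt hu],
    by rw [Real.sq_sqrt hu]; exact huv⟩
  have hpre := fun s K => preconn_arc (m := m) (p := p) hB hψ hB0 s K
  -- the two kinds of meeting points
  have hmeet : (∃ τ ∈ II u v, ph p B τ = 0) ∧ (∃ τ ∈ II u v, ph p B τ = Real.pi) := by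
    rcases ph_level h hs hv hl with ⟨h1, h2⟩ | ⟨h1, h2⟩ <;>
      rcases ph_level h hs' hu hl' with ⟨h3, h4⟩ | ⟨h3, h4⟩
    · exfalso; nlinarith [mul_pos_of_neg_of_neg h1 h3]
    · exact ⟨⟨_, hs, h2⟩, ⟨_, hs', h4⟩⟩
    · exact ⟨⟨_, hs', h4⟩, ⟨_, hs, h2⟩⟩
    · exfalso; nlinarith [mul_pos h1 h3]
  obtain ⟨⟨τ0, hτ0, e0⟩, ⟨τ1, hτ1, e1⟩⟩ := hmeet
  rw [piece_eq hm h]
  apply IsPreconnected.iUnion_of_chain
  · intro K
    have hx := meet_zero (m := m) (ψ := ψ) hτ0 e0 K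
    exact (hpre 1 _).union _ hx.1 hx.2 (hpre (-1) _)
  · intro K
    have hx := meet_pi (m := m) (ψ := ψ) hτ1 e1 K
    exact ⟨_, Or.inl hx.1, Or.inr hx.2⟩

end Pool.Agent.L7h45.OC
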