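import Pool.Agent.L7h17.OC.Stm

/-! [TOP] of project OC (helper17). -/

set_option autoImplicit false

open MvPolynomial

namespace Pool.Agent.L7h45.OC

open Pool.Agent.L7h17.OC

theorem s_TOP : S_TOP := by
  intro k n F A hA hsub hcov hsp
  obtain ⟨C, hne, hdis, hun, hcone, hcl⟩ := hsp
  choose x hx using hne
  choose K hK using hcl
  have hx1 : ∀ i, x i ∈ realCone F := fun i => by
    rw [← hun]
    exact Set.mem_iUnion.2 ⟨i, hx i⟩
  choose c hc j hj using fun i => hcov (x i) (hx1 i)
  have hinj : Function.Injective j := by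
    intro i i' hii
    by_contra hne
    have h1 : c i • x i ∈ C i := hcone i _ (hx i) _ (hc i)
    have h2 : c i' • x i' ∈ C i' := hcone i' _ (hx i') _ (hc i')
    have h3 := isPreconnected_closed_iff.1 (hA (j i)) (K i) (⋃ l ∈ {l : Fin k | l ≠ i}, K l)
      (hK i).1 ((Set.toFinite _).isClosed_biUnion (fun l _ => (hK l).1))
      (by
        intro w hw
        have hw1 : w ∈ ⋃ l, C l := by
          rw [hun]
          exact hsub _ hw
        obtain ⟨l, hl⟩ := Set.mem_iUnion.1 hw1
        have hlK : w ∈ K l := by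
          rw [(hK l).2] at hl
          exact hl.1
        by_cases hli : l = i
        · left
          rw [← hli]
          exact hlK
        · right
          exact Set.mem_biUnion (show l ∈ {l : Fin k | l ≠ i} from hli) hlK)
      ⟨c i • x i, hj i, by
        rw [(hK i).2] at h1
        exact h1.1⟩
      ⟨c i' • x i', by rw [hii]; exact hj i', by
        rw [(hK i').2] at h2
        exact Set.mem_biUnion (show i' ∈ {l : Fin k | l ≠ i} from fun h => hne h.symm) h2.1⟩
    obtain ⟨w, hwA, hwi, hwu⟩ := h3
    obtain ⟨l, hl, hwl⟩ := Set.mem_iUnion₂.1 hwu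
    have hw0 : w ≠ 0 := (hsub _ hwA).1
    have e1 : w ∈ C i := by
      rw [(hK i).2]
      exact ⟨hwi, hw0⟩
    have e2 : w ∈ C l := by
      rw [(hK l).2]
      exact ⟨hwl, hw0⟩
    exact Set.disjoint_left.1 (hdis l i hl) e2 e1
  have := Fintype.card_le_of_injective j hinj
  simpa using this

end Pool.Agent.L7h45.OC
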